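import Pool.Agent.H500.ZO.Stm
import Pool.Graph.R_pool_sql_team_seeded_3997aac3.Q20.EX.All

set_option autoImplicit false
set_option linter.unusedSectionVars false
set_option linter.deprecated false

/-!
# Project ZO, part 1a (helper17, for helper500): ray class characters are Galois characters
-/

namespace Pool.Agent.H17.ZO.ARTa

open NumberField IsDedekindDomain Pool.Agent.Q92.AR
open Pool.Agent.W401.Cheb (GK IsFrob)

section
variable {K : Type} [Field K] [NumberField K] {M : Type} [Field M] [NumberField M] [Algebra K M]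
  [IsGalois K M] [Algebra M (AlgebraicClosure K)] [IsScalarTower K M (AlgebraicClosure K)]

/-- the restriction of an arithmetic Frobenius element -/
theorem isFrob_restrict {v : HeightOneSpectrum (𝓞 K)} {σ : GK K} (h : IsFrob v σ) :
    IsFrobenius v (AlgEquiv.restrictNormalHom M σ) := by
  obtain ⟨P, hP, hPv, hσ⟩ := h
  have hPp : P.IsPrime := hP.isPrime
  set w : Ideal (𝓞 M) := P.comap (algebraMap (𝓞 M) (𝓞 (AlgebraicClosure K))) with hw
  have hwp : w.IsPrime := Ideal.comap_isPrime _ _
  have hwv : w.comap (algebraMap (𝓞 K) (𝓞 M)) = v.asIdeal := by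
    rw [← hPv, hw, Ideal.comap_comap, ← IsScalarTower.algebraMap_eq]
  have hw0 : w ≠ ⊥ := by
    intro h
    apply v.ne_bot
    rw [← hwv, h, ← RingHom.ker_eq_comap_bot]
    exact (RingHom.injective_iff_ker_eq_bot _).1 (FaithfulSMul.algebraMap_injective (𝓞 K) (𝓞 M))
  refine ⟨w, hwp.isMaximal hw0, hwv, fun x => ?_⟩
  have hgx : IsIntegral ℤ (AlgEquiv.restrictNormalHom M σ (x : M)) := x.2.map _
  obtain ⟨y, hy⟩ : ∃ y : 𝓞 M, (y : M) = AlgEquiv.restrictNormalHom M σ (x : M) :=
    ⟨⟨_, hgx⟩, rfl⟩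
  refine ⟨y - x ^ Ideal.absNorm v.asIdeal, ?_, by rw [← hy]; rfl⟩
  rw [hw, Ideal.mem_comap, map_sub, map_pow]
  have h1 : algebraMap (𝓞 M) (𝓞 (AlgebraicClosure K)) y =
      σ • algebraMap (𝓞 M) (𝓞 (AlgebraicClosure K)) x := by
    apply RingOfIntegers.ext
    have h2 : algebraMap M (AlgebraicClosure K) (AlgEquiv.restrictNormalHom M σ (x : M)) =
        σ (algebraMap M (AlgebraicClosure K) (x : M)) :=
      AlgEquiv.restrictNormal_commutes σ M x
    have h3 : ((algebraMap (𝓞 M) (𝓞 (AlgebraicClosure K)) y : 𝓞 (AlgebraicClosure K)) :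
        AlgebraicClosure K) = algebraMap M (AlgebraicClosure K) (y : M) := rfl
    rw [h3, hy, h2]
    rfl
  rw [h1]
  exact hσ _

/-- the kernel of the restriction is open -/
theorem isOpen_ker : IsOpen ((AlgEquiv.restrictNormalHom M : GK K →* _).ker : Set (GK K)) := by
  let ι : M →ₐ[K] AlgebraicClosure K := IsScalarTower.toAlgHom K M (AlgebraicClosure K)
  have hfd : FiniteDimensional K ι.fieldRange := by
    have : FiniteDimensional K M := inferInstance
    exact LinearEquiv.finiteDimensional (AlgEquiv.ofInjectiveField ι).toLinearEquiv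
  have h1 : IsOpen (ι.fieldRange.fixingSubgroup : Set (GK K)) :=
    IntermediateField.fixingSubgroup_isOpen _
  refine Subgroup.isOpen_mono ?_ h1
  intro σ hσ
  rw [IntermediateField.mem_fixingSubgroup_iff] at hσ
  rw [MonoidHom.mem_ker]
  ext x
  apply FaithfulSMul.algebraMap_injective M (AlgebraicClosure K)
  have h2 : algebraMap M (AlgebraicClosure K) (AlgEquiv.restrictNormalHom M σ x) =
      σ (algebraMap M (AlgebraicClosure K) x) := AlgEquiv.restrictNormal_commutes σ M x
  rw [h2]
  exact hσ _ ⟨x, rfl⟩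

end

theorem main : Pool.Agent.H500.ZO.S_ARTa := by
  classical
  intro L _ _ M hM χ hχ
  obtain ⟨F, hF, hFn, hFa, hFg, ψ, N', hN0, -, hram, hart⟩ :=
    Pool.Agent.Q20.EX.all_EXI L M χ hM.ne' hχ
  let ι : F →ₐ[L] AlgebraicClosure L := IsAlgClosed.lift
  let _ : Algebra F (AlgebraicClosure L) := ι.toRingHom.toAlgebra
  have hst : IsScalarTower L F (AlgebraicClosure L) :=
    IsScalarTower.of_algebraMap_eq fun x => (ι.commutes x).symm
  let r : GK L →* (F ≃ₐ[L] F) := AlgEquiv.restrictNormalHom F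
  refine ⟨ψ.comp r, {w | (N' : 𝓞 L) ∈ w.asIdeal}, ?_, ?_, ?_⟩
  · refine Subgroup.isOpen_mono ?_ (isOpen_ker (K := L) (M := F))
    intro σ hσ
    rw [MonoidHom.mem_ker] at hσ ⊢
    change ψ (r σ) = 1
    have h1 : r σ = 1 := hσ
    rw [h1, map_one]
  · have h0 : Ideal.span {(N' : 𝓞 L)} ≠ 0 := by
      rw [Ne, Ideal.zero_eq_bot, Ideal.span_singleton_eq_bot]
      exact Nat.cast_ne_zero.2 hN0
    refine (Ideal.finite_factors h0).subset fun w hw => ?_
    change w.asIdeal ∣ Ideal.span {(N' : 𝓞 L)}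
    rw [Ideal.dvd_span_singleton]
    exact hw
  · intro w hw s hs
    have hw' : (N' : 𝓞 L) ∉ w.asIdeal := hw
    have hun : Unramified F w := by
      by_contra h
      exact hw' (hram w h)
    obtain ⟨h, hh⟩ := isFrobenius_conj hun (isFrob_restrict (M := F) hs) (frob_spec (M := F) w)
    have h1 : art ψ (Finsupp.single w 1) = χ (Finsupp.single w 1) := by
      refine hart _ ?_
      rw [mem_Pr]
      intro v hv
      rw [Finsupp.single_apply, if_neg]
      rintro rfl
      exact hw' hv
    rw [art_single, one_smul] at h1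
    rw [← h1]
    congr 1
    have h2 : ψ (frob F w) = ψ (r s) := by
      rw [hh, map_mul, map_mul, map_inv, mul_comm (ψ h)⁻¹, mul_assoc, inv_mul_cancel, mul_one]
    exact h2.symm

end Pool.Agent.H17.ZO.ARTa
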